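import Pool.Agent.MP_03af62_an.Eye.Main

open Set Filter Topology Pool.Agent.MP_03af62_an

/-- For every `μ > 0` the elastic flow of the eyeglasses network with all weights `μ` and natural
conditions at its two triple junctions has a solution whose bridge disappears in finite time. -/
theorem Pool.Agent.Results.MP_03af62_an.Eyeglasses.result (μ : ℝ) (hμ : 0 < μ) :
    ∃ (T : ℝ) (γ : ℝ → Fin 3 → ℝ → ℂ), 0 < T ∧
      IsFlow (glasses μ) T γ ∧ (∀ t ∈ Ico 0 T, Admissible (glasses μ) (γ t)) ∧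
      (∀ t ∈ Ico 0 T, ∀ e : Fin 3 × Bool,
        ds (γ t e.1) (γ t e.1) (pt e.2) = ds (γ 0 e.1) (γ 0 e.1) (pt e.2)) ∧
      (¬ ∃ T' > T, ∃ γ' : ℝ → Fin 3 → ℝ → ℂ, IsFlow (glasses μ) T' γ' ∧
        ∀ t ∈ Ico 0 T, ∀ i, γ' t i '' Icc 0 1 = γ t i '' Icc 0 1) ∧
      Tendsto (fun t => len (γ t 2)) (𝓝[<] T) (𝓝 0) :=
  Eye.main μ hμ
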