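import Pool.Agent.MP_03af62_an.Fin.Net

open Set Pool.Agent.MP_03af62_an

/-- The elastic flow of a network in which a bridge cuts off a free part has no global solution:
the square of the energy decreases at least linearly, for every initial network. -/
theorem Pool.Agent.Results.MP_03af62_an.FiniteTime.result {N : ℕ} (D : Net N) (S : Set ℕ)
    (b : Fin N × Bool) (hb : FreeBridge D S b) (m : ℝ) (hm : 0 < m) (hw : ∀ i, m ≤ D.weight i)
    (T : ℝ) (γ : ℝ → Fin N → ℝ → ℂ) (h : IsFlow D T γ) :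
    (∀ t ∈ Ico 0 T, energy D (γ t) ^ 2 + 2 * m * D.weight b.1 ^ 2 * t ≤ energy D (γ 0) ^ 2) ∧
      T ≤ energy D (γ 0) ^ 2 / (2 * m * D.weight b.1 ^ 2) :=
  ⟨fun _ ht => Ft.decay h hb hm hw ht,
    Ft.time_le (by have := hm.trans_le (hw b.1); positivity) (sq_nonneg _)
      fun _ ht => le_trans (le_add_of_nonneg_left (sq_nonneg _)) (Ft.decay h hb hm hw ht)⟩
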