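import Pool.Agent.MP_03af62_an.Fin.Loop

open Set Pool.Agent.MP_03af62_an

/-- Networks with a free bridge and loops `L`, below an energy threshold: the flow ends in finite
time, while the loops keep their corners open and their lengths bounded below. -/
theorem Pool.Agent.Results.MP_03af62_an.OnlyBridge.result {N : ℕ} (D : Net N) (S : Set ℕ)
    (b : Fin N × Bool) (hb : FreeBridge D S b) (m : ℝ) (hm : 0 < m) (hw : ∀ i, m ≤ D.weight i)
    (L : Finset (Fin N)) (hL : ∀ i ∈ L, D.vtx (i, false) = D.vtx (i, true))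
    (T : ℝ) (hT : 0 < T) (γ : ℝ → Fin N → ℝ → ℂ) (h : IsFlow D T γ)
    (hE : energy D (γ 0) < ∑ i ∈ L, 52 / 5 * √(D.weight i) + √m) :
    T ≤ (energy D (γ 0) ^ 2 - (∑ i ∈ L, 52 / 5 * √(D.weight i)) ^ 2) / (2 * m * D.weight b.1 ^ 2) ∧
      ∀ t ∈ Ico 0 T, ∀ i ∈ L, 1 / 10 ≤ |inner ℝ (ds (γ t i) (γ t i) 0) (nrm (γ t i) 1)| ∧
        3 ≤ √(D.weight i) * len (γ t i) :=
  Ft.only_bridge h hT hb hm hw L hL hE
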